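import Pool.Agent.J6H10.GI.Base

/-!
# GI-PHI (MP_0575cc_nt): the normalised kernel averages form a bounded slowly oscillating family
-/

set_option autoImplicit false

open MeasureTheory Set Filter Topology

namespace Pool.Agent.J6H76.GI

open Pool.Agent.J6H10.GI

/-- elementary facts on `τ = log (1 + 1/r)` -/
theorem tau_pos {r : ℝ} (hr : 2 ≤ r) : 0 < Real.log (1 + 1 / r) :=
  Real.log_pos (by have : 0 < 1 / r := by positivity
                   linarith)

theorem tau_le {r : ℝ} (hr : 2 ≤ r) : Real.log (1 + 1 / r) ≤ 1 / r := by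
  have h0 : 0 < 1 / r := by positivity
  have := Real.log_le_sub_one_of_pos (show (0 : ℝ) < 1 + 1 / r by linarith)
  linarith

theorem tau_le_one {r : ℝ} (hr : 2 ≤ r) : Real.log (1 + 1 / r) ≤ 1 := by
  refine (tau_le hr).trans ?_
  rw [div_le_one (by linarith)]
  linarith

theorem tau_lt {r r' : ℝ} (hr' : 2 ≤ r') (h : r' < r) :
    Real.log (1 + 1 / r) < Real.log (1 + 1 / r') := by
  have h1 : 1 / r < 1 / r' := one_div_lt_one_div_of_lt (by linarith) h
  have h0 : 0 < 1 / r := by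
    have : 0 < r := by linarith
    positivity
  exact Real.log_lt_log (by linarith) (by linarith)

theorem tau_sub {r r' : ℝ} (hr' : 2 ≤ r') (h : r' < r) :
    Real.log (1 + 1 / r') - Real.log (1 + 1 / r) ≤ (r / r' - 1) / r := by
  have hr0 : 0 < r := by linarith
  have hr0' : 0 < r' := by linarith
  have h0 : 0 < 1 / r := by positivity
  have h0' : 0 < 1 / r' := by positivity
  have h1 : 1 / r < 1 / r' := one_div_lt_one_div_of_lt hr0' h
  rw [← Real.log_div (by linarith) (by linarith)]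
  have h2 := Real.log_le_sub_one_of_pos (show (0 : ℝ) < (1 + 1 / r') / (1 + 1 / r) by positivity)
  have h3 : (1 + 1 / r') / (1 + 1 / r) - 1 = (1 / r' - 1 / r) / (1 + 1 / r) := by
    field_simp
    ring
  have h4 : (1 / r' - 1 / r) / (1 + 1 / r) ≤ 1 / r' - 1 / r :=
    div_le_self (by linarith) (by linarith)
  have h5 : (r / r' - 1) / r = 1 / r' - 1 / r := by
    field_simp
  rw [h5]
  linarith

theorem sqrt_sub_one_le {x : ℝ} (hx : 1 ≤ x) : Real.sqrt x - 1 ≤ Real.sqrt (x - 1) := by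
  have h1 : Real.sqrt x ≤ Real.sqrt (x - 1) + 1 := by
    rw [Real.sqrt_le_left (by positivity)]
    have h2 := Real.sq_sqrt (show (0 : ℝ) ≤ x - 1 by linarith)
    have h3 := Real.sqrt_nonneg (x - 1)
    nlinarith
  linarith

theorem t_PHI (hPB : S_PB) (hOSC : S_OSC) : S_PHI := by
  obtain ⟨K0, hK0, hPB⟩ := hPB
  intro W C hW
  have hC : 0 ≤ C := hW.C_nonneg
  set A : ℝ := K0 * C with hA
  have hA0 : 0 ≤ A := mul_nonneg hK0 hC
  have hE : 0 < Real.exp 2 := Real.exp_pos 2
  have hpi : 2 / Real.pi ≤ 1 := by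
    rw [div_le_one Real.pi_pos]
    exact Real.two_le_pi
  have hpi0 : 0 < 2 / Real.pi := by positivity
  -- the bound for `r Psi`
  have hb : ∀ δ r : ℝ, 0 < δ → δ ≤ 1 → 2 ≤ r →
      0 ≤ r * Psi W δ (Real.log (1 + 1 / r)) ∧ r * Psi W δ (Real.log (1 + 1 / r)) ≤ A := by
    intro δ r hδ hδ1 hr
    obtain ⟨-, h1, h2⟩ := hPB W C hW δ _ hδ hδ1 (tau_pos hr) (tau_le_one hr)
    have hr0 : 0 < r := by linarith
    refine ⟨mul_nonneg hr0.le h1, ?_⟩
    have h3 : K0 * C * Real.log (1 + 1 / r) ≤ A * (1 / r) :=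
      mul_le_mul_of_nonneg_left (tau_le hr) hA0
    calc r * Psi W δ (Real.log (1 + 1 / r)) ≤ r * (A * (1 / r)) :=
          mul_le_mul_of_nonneg_left (h2.trans h3) hr0.le
      _ = A := by field_simp
  refine ⟨A + (Real.exp 2 + 1) * Real.sqrt A, by positivity, ?_, ?_, ?_⟩
  · intro δ r hδ hδ1 hr
    exact mul_nonneg hpi0.le (hb δ r hδ hδ1 hr).1
  · intro δ r hδ hδ1 hr
    obtain ⟨h1, h2⟩ := hb δ r hδ hδ1 hr
    have h3 : Phi W δ r ≤ A := by
      unfold Phi
      calc 2 / Real.pi * (r * Psi W δ (Real.log (1 + 1 / r)))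
          ≤ 1 * (r * Psi W δ (Real.log (1 + 1 / r))) := mul_le_mul_of_nonneg_right hpi h1
        _ ≤ A := by rw [one_mul]; exact h2
    have h4 : 0 ≤ (Real.exp 2 + 1) * Real.sqrt A := by positivity
    linarith
  · intro δ r r' hδ hδ1 hr' hrr
    rcases eq_or_lt_of_le hrr with h | h
    · subst h
      simp only [sub_self, abs_zero]
      positivity
    have hr : 2 ≤ r := by linarith
    have hr0 : 0 < r := by linarith
    have hr0' : 0 < r' := by linarith
    set τ : ℝ := Real.log (1 + 1 / r) with hτ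
    set τ' : ℝ := Real.log (1 + 1 / r') with hτ'
    have hlt : τ < τ' := tau_lt hr' h
    have hx : 1 ≤ r / r' := (one_le_div hr0').2 hrr
    set x : ℝ := r / r' with hxd
    have hosc := hOSC W C hW δ τ τ' hδ hδ1 (tau_pos hr) hlt (tau_le_one hr')
    obtain ⟨-, hp1, hp2⟩ := hPB W C hW δ (τ' - τ) hδ hδ1 (by linarith)
      (by have := tau_pos hr; have := tau_le_one hr'; linarith)
    have hp3 : Psi W δ (τ' - τ) ≤ A * ((x - 1) / r) :=
      hp2.trans (mul_le_mul_of_nonneg_left (tau_sub hr' h) hA0)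
    have hq : Real.sqrt r * Real.sqrt (Psi W δ (τ' - τ)) ≤ Real.sqrt A * Real.sqrt (x - 1) := by
      rw [← Real.sqrt_mul hr0.le, ← Real.sqrt_mul hA0]
      apply Real.sqrt_le_sqrt
      calc r * Psi W δ (τ' - τ) ≤ r * (A * ((x - 1) / r)) := mul_le_mul_of_nonneg_left hp3 hr0.le
        _ = A * (x - 1) := by field_simp
    have e1 : Real.sqrt (Phi W δ r) = Real.sqrt (2 / Real.pi) * (Real.sqrt r * Real.sqrt (Psi W δ τ)) := by
      unfold Phi
      rw [Real.sqrt_mul hpi0.le, Real.sqrt_mul hr0.le]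
    have e2 : Real.sqrt (Phi W δ r') = Real.sqrt (2 / Real.pi) * (Real.sqrt r' * Real.sqrt (Psi W δ τ')) := by
      unfold Phi
      rw [Real.sqrt_mul hpi0.le, Real.sqrt_mul hr0'.le]
    have hs1 : Real.sqrt (2 / Real.pi) ≤ 1 := by
      rw [show (1 : ℝ) = Real.sqrt 1 by simp]
      exact Real.sqrt_le_sqrt hpi
    have hs0 : 0 ≤ Real.sqrt (2 / Real.pi) := Real.sqrt_nonneg _
    -- second part
    have h5 : Real.sqrt r' * Real.sqrt (Psi W δ τ') ≤ Real.sqrt A := by
      rw [← Real.sqrt_mul hr0'.le]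
      exact Real.sqrt_le_sqrt (hb δ r' hδ hδ1 hr').2
    have h6 : Real.sqrt r = Real.sqrt x * Real.sqrt r' := by
      rw [← Real.sqrt_mul (by linarith)]
      congr 1
      rw [hxd]
      field_simp
    have h7 : (Real.sqrt r - Real.sqrt r') * Real.sqrt (Psi W δ τ') ≤ Real.sqrt A * Real.sqrt (x - 1) := by
      have h8 : (Real.sqrt r - Real.sqrt r') * Real.sqrt (Psi W δ τ')
          = (Real.sqrt x - 1) * (Real.sqrt r' * Real.sqrt (Psi W δ τ')) := by rw [h6]; ring
      rw [h8, mul_comm (Real.sqrt A)]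
      have h9 : 0 ≤ Real.sqrt x - 1 := by
        have := Real.one_le_sqrt.2 hx
        linarith
      exact mul_le_mul (sqrt_sub_one_le hx) h5 (by positivity) (by positivity)
    have h7' : 0 ≤ (Real.sqrt r - Real.sqrt r') * Real.sqrt (Psi W δ τ') :=
      mul_nonneg (sub_nonneg.2 (Real.sqrt_le_sqrt hrr)) (Real.sqrt_nonneg _)
    have h10 : |Real.sqrt r * Real.sqrt (Psi W δ τ) - Real.sqrt r' * Real.sqrt (Psi W δ τ')|
        ≤ (Real.exp 2 + 1) * (Real.sqrt A * Real.sqrt (x - 1)) := by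
      have e3 : Real.sqrt r * Real.sqrt (Psi W δ τ) - Real.sqrt r' * Real.sqrt (Psi W δ τ')
          = - (Real.sqrt r * (Real.sqrt (Psi W δ τ') - Real.sqrt (Psi W δ τ)))
            + (Real.sqrt r - Real.sqrt r') * Real.sqrt (Psi W δ τ') := by ring
      rw [e3]
      refine (abs_add_le _ _).trans ?_
      rw [abs_neg, abs_mul, abs_of_nonneg (Real.sqrt_nonneg r), abs_of_nonneg h7']
      have h11 : Real.sqrt r * |Real.sqrt (Psi W δ τ') - Real.sqrt (Psi W δ τ)|
          ≤ Real.exp 2 * (Real.sqrt A * Real.sqrt (x - 1)) := by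
        calc Real.sqrt r * |Real.sqrt (Psi W δ τ') - Real.sqrt (Psi W δ τ)|
            ≤ Real.sqrt r * (Real.exp 2 * Real.sqrt (Psi W δ (τ' - τ))) :=
              mul_le_mul_of_nonneg_left hosc (Real.sqrt_nonneg _)
          _ = Real.exp 2 * (Real.sqrt r * Real.sqrt (Psi W δ (τ' - τ))) := by ring
          _ ≤ _ := mul_le_mul_of_nonneg_left hq hE.le
      linarith
    rw [e1, e2, ← mul_sub, abs_mul, abs_of_nonneg hs0]
    calc Real.sqrt (2 / Real.pi) * |Real.sqrt r * Real.sqrt (Psi W δ τ) - Real.sqrt r' * Real.sqrt (Psi W δ τ')|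
        ≤ 1 * |Real.sqrt r * Real.sqrt (Psi W δ τ) - Real.sqrt r' * Real.sqrt (Psi W δ τ')| :=
          mul_le_mul_of_nonneg_right hs1 (abs_nonneg _)
      _ ≤ (Real.exp 2 + 1) * (Real.sqrt A * Real.sqrt (x - 1)) := by rw [one_mul]; exact h10
      _ = ((Real.exp 2 + 1) * Real.sqrt A) * Real.sqrt (x - 1) := by ring
      _ ≤ (A + (Real.exp 2 + 1) * Real.sqrt A) * Real.sqrt (x - 1) :=
          mul_le_mul_of_nonneg_right (by linarith) (Real.sqrt_nonneg _)

end Pool.Agent.J6H76.GI
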